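import Pool.Agent.H789R2.CapK

set_option autoImplicit false

namespace Pool.Agent.Results.MP_fe4d92_an.CapacityCriterion

open Pool.Agent.H789R2.Cap

/-- **Q1 has a negative answer.** For `P = Δ` on `ℝ³` (`p = 2`, `n = 3`), `s = 0` and
`𝓛_loc = L⁴_loc` (`q = 4`, `q' = 4/3`, `λ = 0`, so that `d = n/q' - (p - s - λ) = 1/4 > 0`) there is a
compact set `K ⊆ ℝ³` which satisfies condition (3) but not condition (1). This holds for
real-valued and for complex-valued functions and distributions. -/
theorem result (𝕜 : Type) [RCLike 𝕜] :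
    ∃ K : Set E3, IsCompact K ∧ Cond3 𝕜 K ∧ ¬ Cond1 𝕜 K :=
  Pool.Agent.H789R2.Cap.main 𝕜

end Pool.Agent.Results.MP_fe4d92_an.CapacityCriterion
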